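import Pool.Agent.Lib.MP_e864e9_lc.Counter
import Pool.Agent.Lib.MP_e864e9_lc.ModelsZFA

/-!
# `PPP` fails in a permutation model

There are a set `A` of atoms, a group `G` of permutations of `A` and a normal filter `F` of
subgroups of `G` such that the permutation model `HS F` (the class of hereditarily symmetric
sets), which satisfies ZFA, satisfies the negation of the statement `PPP`: the product of two
`P`-spaces is a `P`-space.

The atoms are `ℕ × ℚ`, the group consists of the permutations which preserve each block `{n} × ℚ`
and its order, and the supports are finite. The two spaces have the same points, a point at
infinity and the atoms; the atoms are isolated, and a set `W` containing the point at infinity is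
open when for each `n` it contains all `(n, r)` with `r` large enough (in the first space), with
`r` small enough (in the second space).
-/

set_option autoImplicit false

namespace Pool.Agent.Results.MP_e864e9_lc.PPPFails

open Pool.Agent.Lib.MP_e864e9_lc

/-- There is a permutation model of ZFA in which the product of two `P`-spaces need not be a
`P`-space. -/
theorem result :
    ∃ (A : Type) (G : Subgroup (Equiv.Perm A)) (F : NormalFilter G),
      ModelsZFA (HS F) ∧ ¬ PPP (HS F) :=
  ⟨ℕ × ℚ, blockGroup, blockFilter, HS.modelsZFA blockFilter, not_PPP⟩

end Pool.Agent.Results.MP_e864e9_lc.PPPFails
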